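import Pool.Agent.E8helper2.PS.Stm

set_option autoImplicit false

/-!
# Differentiability and bounds of `Phi`
-/

open MeasureTheory Filter Topology

namespace Pool.Agent.E8helper93.PS

open Pool.Agent.E8helper2.PS

theorem norm_term (c : ℕ → ℂ) (M : ℝ) (hc : ∀ n, ‖c n‖ ≤ M) (s : ℝ) (w : ℂ) (hw : s ≤ w.im) (j : ℕ) :
    ‖c j * Complex.exp (Complex.I * j * w)‖ ≤ M * Real.exp (-s) ^ j := by
  have hM : 0 ≤ M := (norm_nonneg _).trans (hc 0)
  rw [norm_mul, Complex.norm_exp]
  have h1 : (Complex.I * j * w).re = -(j * w.im) := by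
    simp [Complex.mul_re, Complex.mul_im]
  rw [h1, ← Real.exp_nat_mul]
  refine mul_le_mul (hc j) (Real.exp_le_exp.2 ?_) (Real.exp_pos _).le hM
  have : (0 : ℝ) ≤ j := Nat.cast_nonneg j
  nlinarith

theorem geo {s : ℝ} (hs : 0 < s) : 0 ≤ Real.exp (-s) ∧ Real.exp (-s) < 1 :=
  ⟨(Real.exp_pos _).le, Real.exp_lt_one_iff.2 (by linarith)⟩

theorem summ (M : ℝ) {s : ℝ} (hs : 0 < s) : Summable fun j : ℕ => M * Real.exp (-s) ^ j :=
  (summable_geometric_of_lt_one (geo hs).1 (geo hs).2).mul_left M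

theorem one_sub {s : ℝ} (hs : 0 < s) (h1 : s ≤ 1) : s / 2 ≤ 1 - Real.exp (-s) := by
  have h2 : s + 1 ≤ Real.exp s := Real.add_one_le_exp s
  have h3 : Real.exp (-s) * Real.exp s = 1 := by
    rw [← Real.exp_add]
    simp
  have h4 := Real.exp_pos (-s)
  have h5 : Real.exp (-s) * (s + 1) ≤ 1 :=
    (mul_le_mul_of_nonneg_left h2 h4.le).trans h3.le
  have h6 : (1 - s / 2) * (s + 1) ≥ 1 := by nlinarith
  by_contra hcon
  push Not at hcon
  have h7 : 1 - s / 2 < Real.exp (-s) := by linarith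
  have h8 : (1 - s / 2) * (s + 1) < Real.exp (-s) * (s + 1) :=
    mul_lt_mul_of_pos_right h7 (by linarith)
  linarith

theorem bound (c : ℕ → ℂ) (M : ℝ) (hc : ∀ n, ‖c n‖ ≤ M) (s : ℝ) (hs : 0 < s) (h1 : s ≤ 1) (w : ℂ)
    (hw : s ≤ w.im) : ‖Phi c w‖ ≤ 2 * M / s := by
  have hM : 0 ≤ M := (norm_nonneg _).trans (hc 0)
  unfold Phi
  have e1 : ‖∑' j : ℕ, c j * Complex.exp (Complex.I * j * w)‖ ≤ ∑' j : ℕ, M * Real.exp (-s) ^ j :=
    tsum_of_norm_bounded (summ M hs).hasSum (norm_term c M hc s w hw)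
  refine e1.trans ?_
  rw [tsum_mul_left, tsum_geometric_of_lt_one (geo hs).1 (geo hs).2]
  have h2 := one_sub hs h1
  have h3 : (1 - Real.exp (-s))⁻¹ ≤ (s / 2)⁻¹ := inv_anti₀ (by linarith) h2
  calc M * (1 - Real.exp (-s))⁻¹ ≤ M * (s / 2)⁻¹ := mul_le_mul_of_nonneg_left h3 hM
    _ = 2 * M / s := by
      field_simp

theorem diff (c : ℕ → ℂ) (M : ℝ) (hc : ∀ n, ‖c n‖ ≤ M) :
    DifferentiableOn ℂ (Phi c) {w : ℂ | 0 < w.im} := by
  intro w hw
  have hw' : 0 < w.im := hw
  have hU : IsOpen {z : ℂ | w.im / 2 < z.im} := isOpen_lt continuous_const Complex.continuous_im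
  have h1 : DifferentiableOn ℂ (fun z => ∑' j : ℕ, c j * Complex.exp (Complex.I * j * z))
      {z : ℂ | w.im / 2 < z.im} := by
    refine Complex.differentiableOn_tsum_of_summable_norm (summ M (half_pos hw')) (fun j => ?_) hU
      (fun j z hz => norm_term c M hc _ z (le_of_lt hz) j)
    exact ((((differentiable_id.const_mul (Complex.I * (j : ℂ))).cexp).const_mul (c j))).differentiableOn
  have h2 : DifferentiableAt ℂ (Phi c) w :=
    h1.differentiableAt (hU.mem_nhds (by show w.im / 2 < w.im; linarith))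
  exact h2.differentiableWithinAt

theorem t_CONT : S_CONT := by
  intro c M hc
  have hM : 0 ≤ M := (norm_nonneg _).trans (hc 0)
  refine ⟨diff c M hc, fun w h0 h1 => bound c M hc w.im h0 h1 w le_rfl, fun w h0 h1 => ?_⟩
  have him : ∀ z ∈ Metric.closedBall w (w.im / 2), w.im / 2 ≤ z.im := by
    intro z hz
    have h2 : |(z - w).im| ≤ w.im / 2 :=
      (Complex.abs_im_le_norm (z - w)).trans (by rwa [Metric.mem_closedBall, dist_eq_norm] at hz)
    rw [Complex.sub_im] at h2
    have h3 := (abs_le.1 h2).1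
    linarith
  have hd : DiffContOnCl ℂ (Phi c) (Metric.ball w (w.im / 2)) := by
    refine DifferentiableOn.diffContOnCl ?_
    refine (diff c M hc).mono fun z hz => ?_
    have h3 := him z (Metric.closure_ball_subset_closedBall hz)
    show 0 < z.im
    linarith
  have h2 := Complex.norm_deriv_le_of_forall_mem_sphere_norm_le (c := w) (R := w.im / 2)
    (C := 2 * M / (w.im / 2)) (f := Phi c) (by linarith) hd (fun z hz =>
      bound c M hc (w.im / 2) (by linarith) (by linarith) z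
        (him z (Metric.sphere_subset_closedBall hz)))
  refine h2.trans ?_
  have e : 2 * M / (w.im / 2) / (w.im / 2) = 8 * M / w.im ^ 2 := by
    field_simp
    ring
  rw [e]
  exact div_le_div_of_nonneg_right (by linarith) (by positivity)

end Pool.Agent.E8helper93.PS
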